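import Pool.Agent.Helper50.MB.Goals

/-!
# Packet MB-TREE (MP_fda85d_co)
-/

namespace Pool.Agent.Helper86.MB

open Pool.Agent.Helper50.MB

theorem goalTREE : Pool.Agent.Helper50.MB.TREE := by
  intro V E s t r d par p hr hp
  have hd : ∀ x, x ≠ r → d x = d (par x) + 1 := fun x hx => (hp x hx).1
  have hrit : ∀ k, par^[k] r = r := fun k => Function.iterate_fixed hr k
  have h0 : ∀ (v : V), v ≠ r → ∀ (k : ℕ) (x : V), par^[k] x = v → d x = d v + k := by
    intro v hv k
    induction k with
    | zero =>
      intro x hx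
      rw [← hx]
      rfl
    | succ k ih =>
      intro x hx
      have hxr : x ≠ r := by
        rintro rfl
        rw [hrit] at hx
        exact hv hx.symm
      rw [Function.iterate_succ_apply] at hx
      have := ih (par x) hx
      rw [hd x hxr, this]
      ring
  have h1 : ∀ (n : ℕ) (x : V), d x = n → Dsc par r x := by
    intro n
    induction n with
    | zero =>
      intro x hx
      by_cases hxr : x = r
      · exact ⟨0, hxr⟩
      · have := hd x hxr
        omega
    | succ n ih =>
      intro x hx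
      by_cases hxr : x = r
      · exact ⟨0, hxr⟩
      · have := hd x hxr
        obtain ⟨k, hk⟩ := ih (par x) (by omega)
        exact ⟨k + 1, by rw [Function.iterate_succ_apply]; exact hk⟩
  have h2 : ∀ v w, w ≠ v → (Dsc par v w ↔ Dsc par v (par w)) := by
    intro v w hwv
    constructor
    · rintro ⟨k, hk⟩
      cases k with
      | zero => exact absurd hk hwv
      | succ k =>
        rw [Function.iterate_succ_apply] at hk
        exact ⟨k, hk⟩
    · rintro ⟨k, hk⟩
      exact ⟨k + 1, by rw [Function.iterate_succ_apply]; exact hk⟩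
  have h3 : ∀ v, v ≠ r → ¬ Dsc par v (par v) := by
    rintro v hv ⟨k, hk⟩
    have h4 := h0 v hv k (par v) hk
    have h5 := hd v hv
    omega
  refine ⟨fun x => h1 _ x rfl, ?_, ?_, ?_⟩
  · intro v w hv hw hwv
    rcases (hp w hw).2 with ⟨hs, ht⟩ | ⟨hs, ht⟩
    · rw [hs, ht]
      exact h2 v w hwv
    · rw [hs, ht]
      exact (h2 v w hwv).symm
  · intro v hv h
    have hvv : Dsc par v v := ⟨0, rfl⟩
    rcases (hp v hv).2 with ⟨hs, ht⟩ | ⟨hs, ht⟩
    · rw [hs, ht] at h
      exact h3 v hv (h.1 hvv)
    · rw [hs, ht] at h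
      exact h3 v hv (h.2 hvv)
  · rintro f v w hv hw ⟨j, hj⟩ ⟨k, hk⟩ hdv
    have h4 := h0 v hv j f hj
    have h5 := h0 w hw k f hk
    have hjk : j = k := by omega
    rw [← hj, ← hk, hjk]

end Pool.Agent.Helper86.MB
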